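import Pool.Agent.Helper265_EW.ZOne

/-! The classes `Π_{t/d}` of weighted Fagin-definable problems under reductions computed by circuits
of small depth: complete problems, all inclusions, and all non-inclusions, with the growth of the
parameter, also for the larger classes of the `Π_t` formulas of width at most `d`. -/

namespace Pool.Agent.Results.MP_2a8d8e_lc.CircuitLevels

open Pool.Agent.Helper265_EW

/-- The width of a `Π_t` formula is the minimum of the number of occurrences of `X` with a variable
of the innermost block, the number of variables of the innermost block in atoms of `X`, and one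
plus the number of those occurrences of `X` with a variable of the innermost block that are
positive (negative, if this block is universal). For all `t ≥ 2` and `d ≥ 1` there is a `Π_t`
formula `Φ(X)`, `X` unary, with nonempty blocks and `d` occurrences of `X` such that, for
reductions between weighted Fagin-definable problems computed by (nonuniform) circuits of size
`2 ^ O(k) * n ^ O(1)`:

* the problem of every `Π_t` formula of width at most `d * e`, and the problem of every
  `Π_t'` formula with `t' < t`, reduces to the problem of `Φ` by constant-depth circuits with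
  AND, OR and NOT gates and with new parameter `O ((k + log n) ^ e)`, for `e ≥ 1`;
* the problem of `Φ` does not reduce with new parameter `O ((k + log n) ^ (p / q))` to
  that of a `Π_t` formula with at most `d'` occurrences of `X` with a variable of the innermost
  block, if `(p / q) * d' < d`, even by circuits of depth `(k + log n) ^ o(1)` with arbitrary gates
  with `2 ^ O (k + (k + log n) ^ (1 - δ))` inputs in addition to AND and OR gates with any number
  of inputs, for any `δ > 0`; in fact, for every `δ > 0` there is an `ε > 0` such that the depth
  cannot even be `O ((k + log n) ^ ε)`;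
* if `p / q ≤ 1`, the same holds for the `Π_t` formulas of width at most `d'`;
* the same holds, for all `d` and all `p / q`, for all `Π_t'` formulas with `t' < t`. -/
theorem result (t d : ℕ) (ht : 2 ≤ t) (hd : 1 ≤ d) :
    ∃ (τ₀ : Voc) (Φ : PiF τ₀ 1 t), (∀ i, 1 ≤ Φ.len i) ∧ Φ.occ = d ∧
      (∀ (e t' : ℕ) (τ : Voc) (s : ℕ) (φ : PiF τ s t'), 1 ≤ e →
        (t' < t ∨ (t' = t ∧ φ.width ≤ d * e)) → RedC e 1 φ Φ) ∧
      ∀ (p q t' : ℕ) (τ : Voc) (s : ℕ) (φ : PiF τ s t'), 1 ≤ q →
        (t' < t ∨ (t' = t ∧ (p * φ.innerOcc < q * d ∨
          (p ≤ q ∧ p * φ.width < q * d)))) → ¬ RedF p q Φ φ := by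
  obtain ⟨m, rfl⟩ : ∃ m, t = m + 2 := ⟨t - 2, by omega⟩
  refine ⟨G.srcVt m d, P.normF (decide (m % 2 = 0)) m d, fun _ => Nat.succ_pos d,
    P.normF_occ _ m d, fun e t' τ s φ he h => Y.red_width m d hd e he t' τ s φ h,
    fun p q t' τ s φ hq h => ?_⟩
  rcases h with h | ⟨rfl, h⟩
  · exact Z.no_red_lower' m d hd p q t' hq τ s φ h
  · exact Z.no_red_all m d hd p q hq τ s φ h

end Pool.Agent.Results.MP_2a8d8e_lc.CircuitLevels
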