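import Pool.Agent.Helper265_EW.ZRes

/-! An unconditional separation of the levels `Π_{t/d}` of weighted Fagin definability, for every
`t ≥ 2`, under reductions computed by circuits of small depth, for instances in which the parameter
is a prescribed power of the logarithm of the size of the universe, with matching upper bounds. -/

namespace Pool.Agent.Results.MP_2a8d8e_lc.CircuitSharp

open Pool.Agent.Helper265_EW

/-- For all `t ≥ 2` and `D ≥ 2` some weighted Fagin-definable problem of a `Π_t` formula, with
nonempty quantifier blocks and a unary relation variable `X` that occurs `D` times, has the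
following properties. Consider its restriction to the instances with parameter
`k = (log n) ^ α`, where `α = u / v`, and reductions computed by (nonuniform) circuits of size
`2 ^ O(k) * n ^ O(1)` with new parameter `O ((k + log n) ^ γ)`, where `γ = p / q`.

* For all `d` and all `0 < α ≤ 1` and `γ` with `γ * d < α * D`, the restricted problem has no such
  reduction by circuits of depth `(log n) ^ o(1)` with arbitrary gates with
  `2 ^ O ((log n) ^ (1 - δ))` inputs, for any `δ > 0`, in addition to AND and OR gates with
  any number of inputs (in fact, for every `δ > 0` there is an `ε > 0` such that the depth cannot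
  even be `O ((log n) ^ ε)`), to any weighted Fagin-definable problem of a `Π_t` formula in which `X` (of
  any arity) occurs at most `d` times with a variable of the innermost block, nor, if `γ ≤ 1`, to
  that of a `Π_t` formula of width at most `d`. The width is the minimum of the number of
  occurrences of `X` with a variable of the innermost block, the number of variables of the
  innermost block in atoms of `X`, and one plus the number of those occurrences of `X` with a
  variable of the innermost block that are positive (negative, if this block is universal).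
* For all `d ≥ 1` there is a `Π_t` formula with `d` occurrences of a unary `X` such that, for all
  `e ≥ 1` with `D ≤ d * e` and all `α` and `γ` with `α * e ≤ γ`, the restricted problem has such a
  reduction by constant-depth circuits with AND, OR and NOT gates to its problem.

So if `d` divides `D` and `0 < α ≤ 1`, the restricted problem reduces to the problem of a `Π_t`
formula with `d` occurrences of `X` if and only if `γ ≥ α * D / d`. -/
theorem result (t D : ℕ) (ht : 2 ≤ t) (hD : 2 ≤ D) :
    ∃ (τ : Voc) (φ : PiF τ 1 t), (∀ i, 1 ≤ φ.len i) ∧ φ.occ = D ∧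
      (∀ u v d p q : ℕ, 1 ≤ u → u ≤ v → 1 ≤ q → v * p * d < q * (u * D) →
        ∀ (τ' : Voc) (s : ℕ) (φ' : PiF τ' s t), (φ'.innerOcc ≤ d ∨ (p ≤ q ∧ φ'.width ≤ d)) →
          ¬ RedFAt u v p q φ φ') ∧
      ∀ d : ℕ, 1 ≤ d → ∃ (τ' : Voc) (φ' : PiF τ' 1 t), (∀ i, 1 ≤ φ'.len i) ∧ φ'.occ = d ∧
        ∀ u v e p q : ℕ, 1 ≤ v → 1 ≤ q → 1 ≤ e → D ≤ d * e → q * (u * e) ≤ v * p →
          RedCAt u v p q φ φ' := by
  obtain ⟨m, rfl⟩ : ∃ m, t = m + 2 := ⟨t - 2, by omega⟩
  obtain ⟨e, rfl⟩ : ∃ e, D = e + 1 := ⟨D - 1, by omega⟩
  refine ⟨G.srcVt m e, G.srcFt (decide (m % 2 = 0)) m e, fun _ => Nat.succ_pos e,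
    G.srcFt_occ _ m e, fun u v d p q hu huv hq hpq _ _ φ' h => ?_, fun d hd => ?_⟩
  · rcases h with h | ⟨hpq', h⟩
    · exact Z.no_redAt_F m e d p q u v (by omega) hq hu huv hpq φ' h
    · exact Z.no_redAt_widthF m e d p q u v (by omega) hq hu huv hpq' hpq φ' h
  refine ⟨G.srcVt m d, P.normF (decide (m % 2 = 0)) m d, fun _ => Nat.succ_pos d,
    P.normF_occ _ m d, fun u v e' p q hv hq he' hD' hpq => X.redAt_C hq ?_⟩
  refine C.red_norm_at m d hd e' he' u v p q hv hpq _ 1 _ (le_trans ?_ hD')
  exact (C.occP_le _ _).trans (G.srcFt_occ (decide (m % 2 = 0)) m e).le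

end Pool.Agent.Results.MP_2a8d8e_lc.CircuitSharp
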