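import Pool.Agent.Helper265_EW.VRes

/-! Weighted Fagin definability with few innermost variables under the relation variable, under
ept-reductions. -/

namespace Pool.Agent.Results.MP_2a8d8e_lc.InnerVars

open Pool.Agent.Helper265_EW

/-- For all `t ≥ 2` and `d ≥ 1` there is a `Π_t` formula `Φ(X)`, `X` unary, with nonempty blocks,
`d` occurrences of `X` and at most `d` innermost variables in atoms of `X`, such that for every
`e ≥ 1` the weighted Fagin-definable problem of `φ` reduces to that of `Φ` by an
ept-interpretation with new parameter `(k + 1) ^ e` for each `Π_t` formula `φ` in which at most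
`d * e` variables of the innermost block occur in atoms of the relation variable, which may have
any arity and any number of occurrences, and, more generally, for each `Π_t` formula of variable
width at most `d * e`. The same holds for the `Π_t` formulas of inner width at most `d * e` up to
false atoms, for those whose inner occurrences are all negative if the innermost block is
existential and all positive if it is universal, and for all `Π_t'` formulas with `t' < t`. -/
theorem result (t d : ℕ) (ht : 2 ≤ t) (hd : 1 ≤ d) :
    ∃ (τ₀ : Voc) (Φ : PiF τ₀ 1 t), (∀ i, 1 ≤ Φ.len i) ∧ Φ.occ = d ∧ Φ.innerVars ≤ d ∧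
      ∀ (e : ℕ) (τ : Voc) (s t' : ℕ) (φ : PiF τ s t'), 1 ≤ e →
        (t' < t ∨ (t' = t ∧ (φ.innerVars ≤ d * e ∨ φ.VarWidth (d * e) ∨ φ.NegWidth (d * e) ∨
          φ.InnerNeg))) →
        EptRed (fun k => (k + 1) ^ e) φ Φ := by
  obtain ⟨m, rfl⟩ : ∃ m, t = m + 2 := ⟨t - 2, by omega⟩
  refine ⟨G.srcVt m d, P.normF (decide (m % 2 = 0)) m d, fun _ => Nat.succ_pos d,
    P.normF_occ _ m d, ?_, fun e τ s t' φ he h => V.ept_all m d e hd he φ h⟩
  refine (V.innerVars_le _).trans ?_
  rw [P.normF_occ, mul_one]

end Pool.Agent.Results.MP_2a8d8e_lc.InnerVars
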