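import Pool.Agent.Helper265_EW.WFinal

/-! A normal form theorem for weighted Fagin definability with a trade-off between the size of
the new structure and the new parameter. -/

namespace Pool.Agent.Results.MP_2a8d8e_lc.Tradeoff

open Pool.Agent.Helper265_EW

/-- For all `t ≥ 2` and `d ≥ 1` there is a `Π_t` formula `Φ(X)`, `X` unary, with nonempty blocks
and `d` occurrences of `X` such that for every `e ≥ 1` the weighted Fagin-definable problem of
each `Π_t` formula with at most `d * e` occurrences of `X` with a variable of the innermost block,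
or only of inner width at most `d * e`, reduces to that of `Φ` by an interpretation with words of
any length `r`, with new parameter `(k / r + 1) ^ e` and `O (k + n ^ r) ^ O (1)` new elements. The
same holds for all formulas in `Π_t'` with `t' < t`. For `r = 1` this gives a polynomial-time
reduction with new parameter `(k + 1) ^ e`, and for `r = k / log n + 1` a reduction of size
`2 ^ O (k) * n ^ O (1)` with new parameter at most `(min k (log n) + 1) ^ e`. -/
theorem result (t d : ℕ) (ht : 2 ≤ t) (hd : 1 ≤ d) :
    ∃ (τ₀ : Voc) (Φ : PiF τ₀ 1 t), (∀ i, 1 ≤ Φ.len i) ∧ Φ.occ = d ∧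
      ∀ e : ℕ, 1 ≤ e → ∀ (t' : ℕ) (τ : Voc) (s : ℕ) (φ : PiF τ s t'),
        (t' < t ∨ (t' = t ∧ (φ.innerOcc ≤ d * e ∨ φ.InnerWidth (d * e)))) → WRed e φ Φ := by
  obtain ⟨m, rfl⟩ : ∃ m, t = m + 2 := ⟨t - 2, by omega⟩
  exact ⟨G.srcVt m d, P.normF (decide (m % 2 = 0)) m d, fun _ => Nat.succ_pos d,
    P.normF_occ _ m d, fun e he t' τ s φ h => W.wred_norm m d hd e he t' τ s φ h⟩

end Pool.Agent.Results.MP_2a8d8e_lc.Tradeoff
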